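import Mathlib

namespace Pool.Agent.K1H92.Energy

open Finset

/-- Fibre-square identity. -/
lemma sum_fiber_sq {ι κ : Type*} [DecidableEq κ] (P : Finset ι) (T : Finset κ)
    (φ : ι → κ) (hφ : ∀ p ∈ P, φ p ∈ T) (w : ι → ℝ) :
    ∑ m ∈ T, (∑ p ∈ P with φ p = m, w p) ^ 2
      = ∑ p ∈ P, ∑ q ∈ P, if φ p = φ q then w p * w q else 0 := by
  rw [← Finset.sum_fiberwise_of_maps_to hφ]
  refine Finset.sum_congr rfl ?_
  intro m hm
  rw [sq, Finset.sum_mul_sum]
  refine Finset.sum_congr rfl ?_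
  intro p hp
  rw [Finset.sum_filter]
  refine Finset.sum_congr rfl ?_
  intro q hq
  have hpm : φ p = m := (Finset.mem_filter.mp hp).2
  subst hpm
  by_cases h : φ q = φ p
  · simp [h]
  · have h' : ¬ (φ p = φ q) := fun e => h e.symm
    simp [h, h']

/-- Finite additive energy inequality. -/
lemma energy_finite (q : ℕ → ℝ) (N : ℕ) :
    (∑ i ∈ range N, q i ^ 2) ^ 2 ≤
      ∑ m ∈ range (2 * N), (∑ p ∈ (range N ×ˢ range N) with p.1 + p.2 = m, q p.1 * q p.2) ^ 2 := by
  classical
  have h1 := sum_fiber_sq (range N ×ˢ range N) (range (2 * N)) (fun p : ℕ × ℕ => p.1 + p.2)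
    (by intro p hp; simp only [mem_product, mem_range] at hp ⊢; omega)
    (fun p => q p.1 * q p.2)
  have h2 := sum_fiber_sq (range N ×ˢ range N) (Finset.Icc (-(N : ℤ)) N)
    (fun p : ℕ × ℕ => (p.1 : ℤ) - p.2)
    (by intro p hp; simp only [mem_product, mem_range, mem_Icc] at hp ⊢; omega)
    (fun p => q p.1 * q p.2)
  have h3 : (∑ p ∈ (range N ×ˢ range N), ∑ p' ∈ (range N ×ˢ range N),
      if p.1 + p.2 = p'.1 + p'.2 then (q p.1 * q p.2) * (q p'.1 * q p'.2) else 0)
      = ∑ p ∈ (range N ×ˢ range N), ∑ p' ∈ (range N ×ˢ range N),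
      if (p.1 : ℤ) - p.2 = (p'.1 : ℤ) - p'.2 then (q p.1 * q p.2) * (q p'.1 * q p'.2) else 0 := by
    simp only [Finset.sum_product]
    -- i j l m with i + j = l + m ; right: i l m j with i - l = m - j
    refine Finset.sum_congr rfl ?_
    intro i _
    calc (∑ j ∈ range N, ∑ l ∈ range N, ∑ m ∈ range N,
            if i + j = l + m then q i * q j * (q l * q m) else 0)
        = ∑ l ∈ range N, ∑ j ∈ range N, ∑ m ∈ range N,
            if i + j = l + m then q i * q j * (q l * q m) else 0 := Finset.sum_comm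
      _ = ∑ l ∈ range N, ∑ m ∈ range N, ∑ j ∈ range N,
            if i + j = l + m then q i * q j * (q l * q m) else 0 := by
          refine Finset.sum_congr rfl ?_
          intro l _
          exact Finset.sum_comm
      _ = _ := by
          refine Finset.sum_congr rfl ?_
          intro l _
          refine Finset.sum_congr rfl ?_
          intro m _
          refine Finset.sum_congr rfl ?_
          intro j _
          by_cases h : i + j = l + m
          · have h' : (i : ℤ) - l = (m : ℤ) - j := by omega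
            rw [if_pos h, if_pos h']; ring
          · have h' : ¬ ((i : ℤ) - l = (m : ℤ) - j) := by omega
            rw [if_neg h, if_neg h']
  rw [h1, h3, ← h2]
  have h4 : (∑ i ∈ range N, q i ^ 2) =
      ∑ p ∈ (range N ×ˢ range N) with ((p.1 : ℤ) - p.2 = 0), q p.1 * q p.2 := by
    rw [Finset.sum_filter, Finset.sum_product]
    refine Finset.sum_congr rfl ?_
    intro i hi
    have : ∀ j ∈ range N, (if ((i : ℤ) - j = 0) then q i * q j else 0)
        = if j = i then q i * q i else 0 := by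
      intro j _
      by_cases h : j = i
      · subst h; simp
      · have : ¬ ((i : ℤ) - j = 0) := by omega
        rw [if_neg this, if_neg h]
    rw [Finset.sum_congr rfl this, Finset.sum_ite_eq' (range N) i, if_pos hi]
    ring
  rw [h4]
  refine Finset.single_le_sum (f := fun d : ℤ =>
    (∑ p ∈ (range N ×ˢ range N) with ((p.1 : ℤ) - p.2 = d), q p.1 * q p.2) ^ 2)
    (fun d _ => sq_nonneg _) ?_
  simp

/-- The Cauchy square of a sequence. -/
noncomputable def conv (q : ℕ → ℝ) (m : ℕ) : ℝ := ∑ p ∈ antidiagonal m, q p.1 * q p.2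

lemma filter_eq_of_lt {N m : ℕ} (h : m < N) :
    ((range N ×ˢ range N).filter (fun p : ℕ × ℕ => p.1 + p.2 = m)) = antidiagonal m := by
  ext p
  simp only [mem_filter, mem_product, mem_range, Finset.HasAntidiagonal.mem_antidiagonal]
  omega

lemma filter_subset' (N m : ℕ) :
    ((range N ×ˢ range N).filter (fun p : ℕ × ℕ => p.1 + p.2 = m)) ⊆ antidiagonal m := by
  intro p
  simp only [mem_filter, mem_product, mem_range, Finset.HasAntidiagonal.mem_antidiagonal]
  omega

/-- Weighted infinite additive energy inequality. -/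
theorem energy (k : ℕ → ℝ) (hk : ∀ n, |k n| ≤ 1) (x : ℝ) (hx0 : 0 < x) (hx1 : x < 1) :
    (∑' n, k n ^ 2 * x ^ n) ^ 2 ≤ ∑' m, (conv k m) ^ 2 * x ^ m := by
  set ρ := Real.sqrt x with hρ
  have hρ2 : ρ ^ 2 = x := Real.sq_sqrt hx0.le
  have hρ0 : 0 ≤ ρ := Real.sqrt_nonneg x
  set q : ℕ → ℝ := fun n => k n * ρ ^ n with hq
  have hq2 : ∀ n, q n ^ 2 = k n ^ 2 * x ^ n := by
    intro n
    simp only [hq]
    rw [mul_pow, ← pow_mul, mul_comm n 2, pow_mul, hρ2]
  have hcq : ∀ m, (conv q m) ^ 2 = (conv k m) ^ 2 * x ^ m := by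
    intro m
    have : conv q m = conv k m * ρ ^ m := by
      unfold conv
      rw [Finset.sum_mul]
      refine Finset.sum_congr rfl ?_
      intro p hp
      have hp' : p.1 + p.2 = m := Finset.HasAntidiagonal.mem_antidiagonal.mp hp
      simp only [hq]
      rw [← hp', pow_add]; ring
    rw [this, mul_pow, ← pow_mul, mul_comm m 2, pow_mul, hρ2]
  -- bound for truncated convolutions
  have hbound : ∀ (m : ℕ) (F : Finset (ℕ × ℕ)), F ⊆ antidiagonal m →
      (∑ p ∈ F, q p.1 * q p.2) ^ 2 ≤ ((m : ℝ) + 1) ^ 2 * x ^ m := by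
    intro m F hF
    have h1 : |∑ p ∈ F, q p.1 * q p.2| ≤ ((m : ℝ) + 1) * ρ ^ m := by
      calc |∑ p ∈ F, q p.1 * q p.2| ≤ ∑ p ∈ F, |q p.1 * q p.2| := Finset.abs_sum_le_sum_abs _ _
        _ ≤ ∑ p ∈ F, ρ ^ m := by
            refine Finset.sum_le_sum ?_
            intro p hp
            have hp' : p.1 + p.2 = m := Finset.HasAntidiagonal.mem_antidiagonal.mp (hF hp)
            simp only [hq]
            rw [abs_mul, abs_mul, abs_mul, abs_of_nonneg (pow_nonneg hρ0 p.1),
              abs_of_nonneg (pow_nonneg hρ0 p.2), ← hp', pow_add]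
            have a1 := hk p.1
            have a2 := hk p.2
            have b1 : 0 ≤ ρ ^ p.1 := pow_nonneg hρ0 _
            have b2 : 0 ≤ ρ ^ p.2 := pow_nonneg hρ0 _
            have c1 : |k p.1| * ρ ^ p.1 ≤ ρ ^ p.1 := by nlinarith
            have c2 : |k p.2| * ρ ^ p.2 ≤ ρ ^ p.2 := by nlinarith
            exact mul_le_mul c1 c2 (by positivity) b1
        _ ≤ ∑ p ∈ antidiagonal m, ρ ^ m :=
            Finset.sum_le_sum_of_subset_of_nonneg hF (fun _ _ _ => pow_nonneg hρ0 m)
        _ = ((m : ℝ) + 1) * ρ ^ m := by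
            rw [Finset.sum_const, Finset.Nat.card_antidiagonal, nsmul_eq_mul]
            push_cast; ring
    have h2 : (∑ p ∈ F, q p.1 * q p.2) ^ 2 ≤ (((m : ℝ) + 1) * ρ ^ m) ^ 2 := by
      rw [← sq_abs]
      exact pow_le_pow_left₀ (abs_nonneg _) h1 2
    calc _ ≤ _ := h2
      _ = _ := by rw [mul_pow, ← pow_mul, mul_comm m 2, pow_mul, hρ2]
  have hsumm : Summable (fun m : ℕ => ((m : ℝ) + 1) ^ 2 * x ^ m) := by
    have hn : ‖x‖ < 1 := by rw [Real.norm_eq_abs, abs_of_pos hx0]; exact hx1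
    have s2 := summable_pow_mul_geometric_of_norm_lt_one 2 hn
    have s1 := summable_pow_mul_geometric_of_norm_lt_one 1 hn
    have s0 := summable_pow_mul_geometric_of_norm_lt_one 0 hn
    have := (s2.add (s1.mul_left 2)).add s0
    refine this.congr ?_
    intro m
    simp only [pow_one, pow_zero, one_mul]
    ring
  have hsc : Summable (fun m : ℕ => (conv k m) ^ 2 * x ^ m) := by
    refine Summable.of_nonneg_of_le (fun m => by positivity) (fun m => ?_) hsumm
    rw [← hcq m]
    exact hbound m (antidiagonal m) (Finset.Subset.refl _)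
  -- inequality for every N
  have hN : ∀ N : ℕ, (∑ n ∈ range N, k n ^ 2 * x ^ n) ^ 2 ≤
      ∑' m, (conv k m) ^ 2 * x ^ m + ∑' m : ℕ, (((m + N : ℕ) : ℝ) + 1) ^ 2 * x ^ (m + N) := by
    intro N
    have h0 := energy_finite q N
    have h1 : (∑ n ∈ range N, k n ^ 2 * x ^ n) = ∑ i ∈ range N, q i ^ 2 :=
      Finset.sum_congr rfl (fun n _ => (hq2 n).symm)
    rw [h1]
    refine h0.trans ?_
    have hsplit : 2 * N = N + N := by ring
    rw [hsplit, Finset.sum_range_add]
    have p1 : (∑ m ∈ range N, (∑ p ∈ (range N ×ˢ range N) with p.1 + p.2 = m, q p.1 * q p.2) ^ 2)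
        ≤ ∑' m, (conv k m) ^ 2 * x ^ m := by
      have : (∑ m ∈ range N,
          (∑ p ∈ (range N ×ˢ range N) with p.1 + p.2 = m, q p.1 * q p.2) ^ 2)
          = ∑ m ∈ range N, (conv k m) ^ 2 * x ^ m := by
        refine Finset.sum_congr rfl ?_
        intro m hm
        rw [filter_eq_of_lt (mem_range.mp hm), ← hcq m]
        rfl
      rw [this]
      exact hsc.sum_le_tsum _ (fun m _ => by positivity)
    have hs' : Summable (fun m : ℕ => (((m + N : ℕ) : ℝ) + 1) ^ 2 * x ^ (m + N)) :=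
      (summable_nat_add_iff N).mpr hsumm
    have p2 : (∑ m ∈ range N,
        (∑ p ∈ (range N ×ˢ range N) with p.1 + p.2 = N + m, q p.1 * q p.2) ^ 2)
        ≤ ∑' m : ℕ, (((m + N : ℕ) : ℝ) + 1) ^ 2 * x ^ (m + N) := by
      refine le_trans (Finset.sum_le_sum (fun m _ => ?_))
        (hs'.sum_le_tsum (range N) (fun m _ => by positivity))
      have := hbound (N + m) _ (filter_subset' N (N + m))
      rw [add_comm m N]
      exact_mod_cast this
    exact add_le_add p1 p2
  -- pass to the limit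
  have hsk : Summable (fun n : ℕ => k n ^ 2 * x ^ n) := by
    refine Summable.of_nonneg_of_le (fun m => by positivity) (fun m => ?_)
      (summable_geometric_of_lt_one hx0.le hx1)
    have : k m ^ 2 ≤ 1 := by
      rw [← sq_abs]; exact pow_le_one₀ (abs_nonneg _) (hk m)
    have hxm : 0 ≤ x ^ m := pow_nonneg hx0.le m
    nlinarith
  have t1 : Filter.Tendsto (fun N : ℕ => (∑ n ∈ range N, k n ^ 2 * x ^ n) ^ 2) Filter.atTop
      (nhds ((∑' n, k n ^ 2 * x ^ n) ^ 2)) :=
    (hsk.hasSum.tendsto_sum_nat).pow 2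
  have t2 : Filter.Tendsto (fun N : ℕ => ∑' m : ℕ, (((m + N : ℕ) : ℝ) + 1) ^ 2 * x ^ (m + N))
      Filter.atTop (nhds 0) :=
    tendsto_sum_nat_add (fun m : ℕ => ((m : ℝ) + 1) ^ 2 * x ^ m)
  have t3 : Filter.Tendsto (fun N : ℕ => ∑' m, (conv k m) ^ 2 * x ^ m +
      ∑' m : ℕ, (((m + N : ℕ) : ℝ) + 1) ^ 2 * x ^ (m + N))
      Filter.atTop (nhds (∑' m, (conv k m) ^ 2 * x ^ m + 0)) :=
    tendsto_const_nhds.add t2
  rw [add_zero] at t3
  exact le_of_tendsto_of_tendsto' t1 t3 hN

end Pool.Agent.K1H92.Energy
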