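import Mathlib
import Pool.Agent.K1H92.Energy
import Pool.Agent.K1H92.Rep

namespace Pool.Agent.K1H92.SqrtSpreadAux

open Finset Pool.Agent.K1H92.Energy Pool.Agent.K1H92


open Classical in
/-- indicator of `A`, real valued -/
noncomputable def ind (A : Set ℕ) (n : ℕ) : ℝ := if n ∈ A then 1 else 0

lemma ind_nonneg (A : Set ℕ) (n : ℕ) : 0 ≤ ind A n := by
  unfold ind; split_ifs <;> norm_num

lemma ind_le_one (A : Set ℕ) (n : ℕ) : ind A n ≤ 1 := by
  unfold ind; split_ifs <;> norm_num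

lemma ind_sq (A : Set ℕ) (n : ℕ) : ind A n * ind A n = ind A n := by
  unfold ind; split_ifs <;> norm_num

lemma conv_ind (A : Set ℕ) (n : ℕ) : conv (ind A) n = (rep A n : ℝ) := by
  classical
  have hset : {p : ℕ × ℕ | p.1 ∈ A ∧ p.2 ∈ A ∧ p.1 + p.2 = n}
      = (((antidiagonal n).filter (fun p : ℕ × ℕ => p.1 ∈ A ∧ p.2 ∈ A) : Finset (ℕ × ℕ)) :
        Set (ℕ × ℕ)) := by
    ext p
    simp only [Set.mem_ofPred_eq, Finset.coe_filter, Finset.HasAntidiagonal.mem_antidiagonal]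
    tauto
  unfold rep conv
  rw [hset, Set.ncard_coe_finset, Finset.card_filter]
  push_cast
  refine Finset.sum_congr rfl ?_
  intro p _
  unfold ind
  by_cases h1 : p.1 ∈ A <;> by_cases h2 : p.2 ∈ A <;> simp [h1, h2]

/-- the shifted sequence -/
noncomputable def sh (A : Set ℕ) (H n : ℕ) : ℝ := if H ≤ n then ind A (n - H) else 0

/-- the differenced sequence -/
noncomputable def dif (A : Set ℕ) (H n : ℕ) : ℝ := ind A n - sh A H n

lemma sh_nonneg (A : Set ℕ) (H n : ℕ) : 0 ≤ sh A H n := by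
  unfold sh; split_ifs
  · exact ind_nonneg _ _
  · exact le_refl _

lemma sh_le_one (A : Set ℕ) (H n : ℕ) : sh A H n ≤ 1 := by
  unfold sh; split_ifs
  · exact ind_le_one _ _
  · norm_num

lemma sh_sq (A : Set ℕ) (H n : ℕ) : sh A H n * sh A H n = sh A H n := by
  unfold sh; split_ifs
  · exact ind_sq _ _
  · norm_num

lemma abs_dif (A : Set ℕ) (H n : ℕ) : |dif A H n| ≤ 1 := by
  unfold dif
  have a := ind_nonneg A n
  have b := ind_le_one A n
  have c := sh_nonneg A H n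
  have d := sh_le_one A H n
  rw [abs_le]; constructor <;> linarith

lemma dif_sq (A : Set ℕ) (H n : ℕ) :
    dif A H n ^ 2 = ind A n + sh A H n - 2 * (ind A n * sh A H n) := by
  unfold dif
  have a := ind_sq A n
  have b := sh_sq A H n
  nlinarith

lemma conv_dif (A : Set ℕ) (H n : ℕ) :
    conv (dif A H) n = (rep A n : ℝ) - 2 * (if H ≤ n then (rep A (n - H) : ℝ) else 0)
      + (if 2 * H ≤ n then (rep A (n - 2 * H) : ℝ) else 0) := by
  set F : PowerSeries ℝ := PowerSeries.mk (ind A) with hF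
  have hFF : ∀ m, PowerSeries.coeff m (F * F) = (rep A m : ℝ) := by
    intro m
    rw [PowerSeries.coeff_mul, ← conv_ind]
    unfold conv
    refine Finset.sum_congr rfl ?_
    intro p _
    rw [hF, PowerSeries.coeff_mk, PowerSeries.coeff_mk]
  have hK : PowerSeries.mk (dif A H) = F - (PowerSeries.X : PowerSeries ℝ) ^ H * F := by
    ext m
    rw [map_sub, PowerSeries.coeff_X_pow_mul', PowerSeries.coeff_mk, hF, PowerSeries.coeff_mk]
    unfold dif sh
    split_ifs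
    · rw [PowerSeries.coeff_mk]
    · rfl
  have h1 : conv (dif A H) n
      = PowerSeries.coeff n (PowerSeries.mk (dif A H) * PowerSeries.mk (dif A H)) := by
    rw [PowerSeries.coeff_mul]
    unfold conv
    refine Finset.sum_congr rfl ?_
    intro p _
    rw [PowerSeries.coeff_mk, PowerSeries.coeff_mk]
  have h2 : PowerSeries.mk (dif A H) * PowerSeries.mk (dif A H)
      = F * F - (2 : ℝ) • ((PowerSeries.X : PowerSeries ℝ) ^ H * (F * F))
        + (PowerSeries.X : PowerSeries ℝ) ^ (2 * H) * (F * F) := by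
    rw [hK, two_smul, two_mul, pow_add]; ring
  rw [h1, h2, map_add, map_sub, map_smul, PowerSeries.coeff_X_pow_mul',
    PowerSeries.coeff_X_pow_mul', smul_eq_mul]
  simp only [hFF]

/-- windows of length `T` contain few elements when representation counts are bounded by `B` -/
lemma window (A : Set ℕ) (B T n : ℕ) (hB : ∀ m, rep A m ≤ B) :
    (∑ H ∈ Icc 1 T, ind A (n + H)) ^ 2 ≤ 2 * (T : ℝ) * B := by
  classical
  set W : Finset ℕ := (Icc 1 T).filter (fun H => n + H ∈ A) with hW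
  have h1 : (∑ H ∈ Icc 1 T, ind A (n + H)) = (W.card : ℝ) := by
    rw [hW, Finset.card_filter]
    push_cast
    refine Finset.sum_congr rfl ?_
    intro H _
    unfold ind
    rfl
  have h2 : W.card * W.card ≤ 2 * T * B := by
    rw [← Finset.card_product]
    have hmaps : ∀ p ∈ W ×ˢ W, p.1 + p.2 ∈ range (2 * T + 1) \ {0} := by
      intro p hp
      rw [hW] at hp
      simp only [mem_product, mem_filter, mem_Icc] at hp
      simp only [mem_sdiff, mem_range, mem_singleton]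
      omega
    rw [Finset.card_eq_sum_card_fiberwise hmaps]
    have hc : ∀ s ∈ range (2 * T + 1) \ {0}, ((W ×ˢ W).filter (fun p => p.1 + p.2 = s)).card ≤ B := by
      intro s _
      refine le_trans ?_ (hB (2 * n + s))
      unfold rep
      have hfin : {p : ℕ × ℕ | p.1 ∈ A ∧ p.2 ∈ A ∧ p.1 + p.2 = 2 * n + s}.Finite := by
        refine Set.Finite.subset (antidiagonal (2 * n + s)).finite_toSet ?_
        intro p hp
        simp only [Finset.mem_coe, Finset.HasAntidiagonal.mem_antidiagonal]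
        exact hp.2.2
      rw [← Set.ncard_coe_finset]
      refine Set.ncard_le_ncard_of_injOn (fun p : ℕ × ℕ => (n + p.1, n + p.2)) ?_ ?_ hfin
      · intro p hp
        rw [hW] at hp
        simp only [Finset.coe_filter, mem_product, mem_filter, mem_Icc, Set.mem_ofPred_eq] at hp ⊢
        refine ⟨hp.1.1.2, hp.1.2.2, ?_⟩
        omega
      · intro p _ p' _ h
        simp only [Prod.mk.injEq] at h
        ext <;> omega
    refine le_trans (Finset.sum_le_card_nsmul _ _ B hc) ?_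
    rw [smul_eq_mul]
    refine Nat.mul_le_mul_right B ?_
    rw [Finset.card_sdiff_of_subset (by simp), Finset.card_range, Finset.card_singleton]
    omega
  rw [h1, sq]
  exact_mod_cast h2

section analytic

variable (A : Set ℕ) (x : ℝ)

/-- the generating function of `A` -/
noncomputable def gen : ℝ := ∑' n, ind A n * x ^ n

/-- the weighted count of pairs at distance `H` -/
noncomputable def pairs (H : ℕ) : ℝ := ∑' n, ind A n * ind A (n + H) * x ^ n

variable {x}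

lemma summable_of_bdd (hx0 : 0 < x) (hx1 : x < 1) (u : ℕ → ℝ) (hu0 : ∀ n, 0 ≤ u n)
    (hu1 : ∀ n, u n ≤ 1) : Summable (fun n => u n * x ^ n) := by
  refine Summable.of_nonneg_of_le (fun n => mul_nonneg (hu0 n) (pow_nonneg hx0.le n)) (fun n => ?_)
    (summable_geometric_of_lt_one hx0.le hx1)
  have := hu1 n
  have hx : 0 ≤ x ^ n := pow_nonneg hx0.le n
  nlinarith

lemma tsum_shift (hx0 : 0 < x) (hx1 : x < 1) (H : ℕ) (u v : ℕ → ℝ) (hu0 : ∀ n, 0 ≤ u n)
    (hu1 : ∀ n, u n ≤ 1) (hz : ∀ n, n < H → u n = 0) (hv : ∀ n, u (n + H) = v n) :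
    ∑' n, u n * x ^ n = x ^ H * ∑' n, v n * x ^ n := by
  have hs := summable_of_bdd hx0 hx1 u hu0 hu1
  rw [← hs.sum_add_tsum_nat_add H]
  have h0 : ∑ i ∈ range H, u i * x ^ i = 0 := by
    refine Finset.sum_eq_zero ?_
    intro i hi
    rw [hz i (mem_range.mp hi), zero_mul]
  rw [h0, zero_add, ← tsum_mul_left]
  refine tsum_congr ?_
  intro n
  rw [hv n, pow_add]; ring

lemma tsum_dif_sq (hx0 : 0 < x) (hx1 : x < 1) (H : ℕ) :
    ∑' n, dif A H n ^ 2 * x ^ n = gen A x + x ^ H * gen A x - 2 * (x ^ H * pairs A x H) := by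
  have s1 := summable_of_bdd hx0 hx1 (ind A) (ind_nonneg A) (ind_le_one A)
  have s2 := summable_of_bdd hx0 hx1 (sh A H) (sh_nonneg A H) (sh_le_one A H)
  have s3 := summable_of_bdd hx0 hx1 (fun n => ind A n * sh A H n)
    (fun n => mul_nonneg (ind_nonneg A n) (sh_nonneg A H n))
    (fun n => mul_le_one₀ (ind_le_one A n) (sh_nonneg A H n) (sh_le_one A H n))
  have e2 : ∑' n, sh A H n * x ^ n = x ^ H * gen A x := by
    refine tsum_shift hx0 hx1 H (sh A H) (ind A) (sh_nonneg A H) (sh_le_one A H) ?_ ?_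
    · intro n hn; unfold sh; rw [if_neg (by omega)]
    · intro n; unfold sh; rw [if_pos (by omega), Nat.add_sub_cancel]
  have e3 : ∑' n, (ind A n * sh A H n) * x ^ n = x ^ H * pairs A x H := by
    refine tsum_shift hx0 hx1 H (fun n => ind A n * sh A H n)
      (fun n => ind A n * ind A (n + H))
      (fun n => mul_nonneg (ind_nonneg A n) (sh_nonneg A H n))
      (fun n => mul_le_one₀ (ind_le_one A n) (sh_nonneg A H n) (sh_le_one A H n)) ?_ ?_
    · intro n hn; simp only [sh]; rw [if_neg (by omega), mul_zero]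
    · intro n; simp only [sh]; rw [if_pos (by omega), Nat.add_sub_cancel, mul_comm]
  have : ∀ n, dif A H n ^ 2 * x ^ n
      = (ind A n * x ^ n + sh A H n * x ^ n) - 2 * ((ind A n * sh A H n) * x ^ n) := by
    intro n; rw [dif_sq]; ring
  simp_rw [this]
  rw [Summable.tsum_sub (s1.add s2) (s3.mul_left 2), Summable.tsum_add s1 s2, tsum_mul_left, e2, e3]
  rfl

lemma gen_nonneg (hx0 : 0 < x) : 0 ≤ gen A x :=
  tsum_nonneg (fun n => mul_nonneg (ind_nonneg A n) (pow_nonneg hx0.le n))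

lemma sum_pairs_le (hx0 : 0 < x) (hx1 : x < 1) (T : ℕ) (M : ℝ)
    (hM : ∀ n, ∑ H ∈ Icc 1 T, ind A (n + H) ≤ M) :
    ∑ H ∈ Icc 1 T, pairs A x H ≤ M * gen A x := by
  have hsp : ∀ H ∈ Icc 1 T, Summable (fun n => ind A n * ind A (n + H) * x ^ n) := by
    intro H _
    exact summable_of_bdd hx0 hx1 (fun n => ind A n * ind A (n + H))
      (fun n => mul_nonneg (ind_nonneg A n) (ind_nonneg A _))
      (fun n => mul_le_one₀ (ind_le_one A n) (ind_nonneg A _) (ind_le_one A _))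
  have s1 := summable_of_bdd hx0 hx1 (ind A) (ind_nonneg A) (ind_le_one A)
  unfold pairs gen
  rw [← Summable.tsum_finsetSum hsp, ← tsum_mul_left]
  refine Summable.tsum_le_tsum (fun n => ?_) (summable_sum hsp) (s1.mul_left M)
  have : ∑ H ∈ Icc 1 T, ind A n * ind A (n + H) * x ^ n
      = (ind A n * x ^ n) * ∑ H ∈ Icc 1 T, ind A (n + H) := by
    rw [Finset.mul_sum]
    refine Finset.sum_congr rfl ?_
    intro H _; ring
  rw [this, mul_comm M]
  exact mul_le_mul_of_nonneg_left (hM n) (mul_nonneg (ind_nonneg A n) (pow_nonneg hx0.le n))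

lemma gen_sq (hx0 : 0 < x) (hx1 : x < 1) :
    gen A x ^ 2 = ∑' n, (rep A n : ℝ) * x ^ n ∧ Summable (fun n => (rep A n : ℝ) * x ^ n) := by
  have s1 := summable_of_bdd hx0 hx1 (ind A) (ind_nonneg A) (ind_le_one A)
  have sn : Summable (fun n => ‖ind A n * x ^ n‖) := by
    refine s1.congr ?_
    intro n
    rw [Real.norm_of_nonneg (mul_nonneg (ind_nonneg A n) (pow_nonneg hx0.le n))]
  have hterm : ∀ n, ∑ kl ∈ antidiagonal n, (ind A kl.1 * x ^ kl.1) * (ind A kl.2 * x ^ kl.2)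
      = (rep A n : ℝ) * x ^ n := by
    intro n
    rw [← conv_ind]
    unfold conv
    rw [Finset.sum_mul]
    refine Finset.sum_congr rfl ?_
    intro p hp
    have hp' : p.1 + p.2 = n := Finset.HasAntidiagonal.mem_antidiagonal.mp hp
    rw [← hp', pow_add]; ring
  constructor
  · unfold gen
    rw [sq, tsum_mul_tsum_eq_tsum_sum_antidiagonal_of_summable_norm sn sn]
    exact tsum_congr hterm
  · have := summable_norm_sum_mul_antidiagonal_of_summable_norm sn sn
    have h2 := this.of_norm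
    exact h2.congr hterm

lemma gen_sq_ge (hx0 : 0 < x) (hx1 : x < 1) (L n₀ : ℕ) (hL : ∀ n, n₀ ≤ n → L ≤ rep A n) :
    (L : ℝ) * x ^ n₀ ≤ (1 - x) * gen A x ^ 2 := by
  obtain ⟨h1, h2⟩ := gen_sq A hx0 hx1
  have hg := (hasSum_geometric_of_lt_one hx0.le hx1)
  have h3 : (L : ℝ) * x ^ n₀ * (1 - x)⁻¹ ≤ ∑' n, (rep A n : ℝ) * x ^ n := by
    rw [← h2.sum_add_tsum_nat_add n₀]
    have h0 : 0 ≤ ∑ i ∈ range n₀, (rep A i : ℝ) * x ^ i :=
      Finset.sum_nonneg (fun i _ => mul_nonneg (Nat.cast_nonneg _) (pow_nonneg hx0.le i))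
    have h4 : (L : ℝ) * x ^ n₀ * (1 - x)⁻¹ = ∑' n : ℕ, ((L : ℝ) * x ^ n₀) * x ^ n := by
      rw [tsum_mul_left, hg.tsum_eq]
    have h5 : ∑' n : ℕ, ((L : ℝ) * x ^ n₀) * x ^ n ≤
        ∑' n : ℕ, (rep A (n + n₀) : ℝ) * x ^ (n + n₀) := by
      refine Summable.tsum_le_tsum (fun n => ?_) (hg.summable.mul_left _)
        ((summable_nat_add_iff n₀).mpr h2)
      have : (L : ℝ) ≤ (rep A (n + n₀) : ℝ) := by exact_mod_cast hL (n + n₀) (by omega)
      have hxn : 0 ≤ x ^ n₀ * x ^ n := by positivity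
      rw [pow_add]
      nlinarith
    rw [h4]; linarith
  have hx' : 0 < 1 - x := by linarith
  rw [h1]
  have := mul_le_mul_of_nonneg_left h3 hx'.le
  calc (L : ℝ) * x ^ n₀ = (1 - x) * ((L : ℝ) * x ^ n₀ * (1 - x)⁻¹) := by
        field_simp
    _ ≤ _ := this

lemma conv_dif_sq_tsum_le (hx0 : 0 < x) (hx1 : x < 1) (L δ n₀ B H T : ℕ)
    (hHT : H ≤ T) (hL : ∀ n, n₀ ≤ n → L ≤ rep A n) (hU : ∀ n, n₀ ≤ n → rep A n ≤ L + δ)
    (hB : ∀ n, rep A n ≤ B) :
    (1 - x) * ∑' m, (conv (dif A H) m) ^ 2 * x ^ m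
      ≤ 4 * (δ : ℝ) ^ 2 + (1 - x) * (16 * (B : ℝ) ^ 2 * ((n₀ + 2 * T : ℕ) : ℝ)) := by
  have hx' : 0 < 1 - x := by linarith
  have hg := (hasSum_geometric_of_lt_one hx0.le hx1)
  set N := n₀ + 2 * T with hN
  -- pointwise bound
  have hp1 : ∀ m, N ≤ m → (conv (dif A H) m) ^ 2 ≤ 4 * (δ : ℝ) ^ 2 := by
    intro m hm
    rw [conv_dif, if_pos (by omega), if_pos (by omega)]
    have a1 := hL m (by omega)
    have a2 := hL (m - H) (by omega)
    have a3 := hL (m - 2 * H) (by omega)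
    have b1 := hU m (by omega)
    have b2 := hU (m - H) (by omega)
    have b3 := hU (m - 2 * H) (by omega)
    have a1' : (L : ℝ) ≤ rep A m := by exact_mod_cast a1
    have a2' : (L : ℝ) ≤ rep A (m - H) := by exact_mod_cast a2
    have a3' : (L : ℝ) ≤ rep A (m - 2 * H) := by exact_mod_cast a3
    have b1' : (rep A m : ℝ) ≤ L + δ := by exact_mod_cast b1
    have b2' : (rep A (m - H) : ℝ) ≤ L + δ := by exact_mod_cast b2
    have b3' : (rep A (m - 2 * H) : ℝ) ≤ L + δ := by exact_mod_cast b3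
    have hδ : (0 : ℝ) ≤ δ := Nat.cast_nonneg _
    have hab : |(rep A m : ℝ) - 2 * (rep A (m - H) : ℝ) + (rep A (m - 2 * H) : ℝ)| ≤ 2 * δ := by
      rw [abs_le]; constructor <;> linarith
    have := pow_le_pow_left₀ (abs_nonneg _) hab 2
    rw [sq_abs] at this
    nlinarith
  have hp2 : ∀ m, (conv (dif A H) m) ^ 2 ≤ 16 * (B : ℝ) ^ 2 := by
    intro m
    rw [conv_dif]
    have c1 : (rep A m : ℝ) ≤ B := by exact_mod_cast hB m
    have c1' : (0 : ℝ) ≤ rep A m := Nat.cast_nonneg _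
    have hB0 : (0 : ℝ) ≤ B := Nat.cast_nonneg _
    have c2 : (0 : ℝ) ≤ (if H ≤ m then (rep A (m - H) : ℝ) else 0) ∧
        (if H ≤ m then (rep A (m - H) : ℝ) else 0) ≤ B := by
      split_ifs
      · exact ⟨Nat.cast_nonneg _, by exact_mod_cast hB _⟩
      · exact ⟨le_refl _, hB0⟩
    have c3 : (0 : ℝ) ≤ (if 2 * H ≤ m then (rep A (m - 2 * H) : ℝ) else 0) ∧
        (if 2 * H ≤ m then (rep A (m - 2 * H) : ℝ) else 0) ≤ B := by
      split_ifs
      · exact ⟨Nat.cast_nonneg _, by exact_mod_cast hB _⟩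
      · exact ⟨le_refl _, hB0⟩
    have hab : |(rep A m : ℝ) - 2 * (if H ≤ m then (rep A (m - H) : ℝ) else 0)
      + (if 2 * H ≤ m then (rep A (m - 2 * H) : ℝ) else 0)| ≤ 4 * B := by
      rw [abs_le]; constructor <;> linarith [c2.1, c2.2, c3.1, c3.2]
    have := pow_le_pow_left₀ (abs_nonneg _) hab 2
    rw [sq_abs] at this
    nlinarith
  have hs : Summable (fun m => (conv (dif A H) m) ^ 2 * x ^ m) := by
    refine Summable.of_nonneg_of_le (fun m => by positivity) (fun m => ?_)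
      (hg.summable.mul_left (16 * (B : ℝ) ^ 2))
    exact mul_le_mul_of_nonneg_right (hp2 m) (pow_nonneg hx0.le m)
  have hsplit : ∑' m, (conv (dif A H) m) ^ 2 * x ^ m ≤
      16 * (B : ℝ) ^ 2 * (N : ℝ) + 4 * (δ : ℝ) ^ 2 * (1 - x)⁻¹ := by
    rw [← hs.sum_add_tsum_nat_add N]
    have q1 : ∑ i ∈ range N, (conv (dif A H) i) ^ 2 * x ^ i ≤ 16 * (B : ℝ) ^ 2 * (N : ℝ) := by
      calc _ ≤ ∑ i ∈ range N, 16 * (B : ℝ) ^ 2 := by
            refine Finset.sum_le_sum ?_
            intro i _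
            have h1 := hp2 i
            have h2 : x ^ i ≤ 1 := pow_le_one₀ hx0.le hx1.le
            have h3 : 0 ≤ x ^ i := pow_nonneg hx0.le i
            have h4 : 0 ≤ (conv (dif A H) i) ^ 2 := sq_nonneg _
            nlinarith
        _ = 16 * (B : ℝ) ^ 2 * (N : ℝ) := by
            rw [Finset.sum_const, Finset.card_range, nsmul_eq_mul]; ring
    have q2 : ∑' m : ℕ, (conv (dif A H) (m + N)) ^ 2 * x ^ (m + N) ≤
        4 * (δ : ℝ) ^ 2 * (1 - x)⁻¹ := by
      have : 4 * (δ : ℝ) ^ 2 * (1 - x)⁻¹ = ∑' m : ℕ, 4 * (δ : ℝ) ^ 2 * x ^ m := by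
        rw [tsum_mul_left, hg.tsum_eq]
      rw [this]
      refine Summable.tsum_le_tsum (fun m => ?_) ((summable_nat_add_iff N).mpr hs)
        (hg.summable.mul_left _)
      have h1 := hp1 (m + N) (by omega)
      have h2 : x ^ (m + N) ≤ x ^ m := pow_le_pow_of_le_one hx0.le hx1.le (by omega)
      have h3 : 0 ≤ x ^ (m + N) := pow_nonneg hx0.le _
      have h4 : 0 ≤ (4 * (δ : ℝ) ^ 2) := by positivity
      calc _ ≤ 4 * (δ : ℝ) ^ 2 * x ^ (m + N) := mul_le_mul_of_nonneg_right h1 h3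
        _ ≤ _ := mul_le_mul_of_nonneg_left h2 h4
    linarith
  calc (1 - x) * ∑' m, (conv (dif A H) m) ^ 2 * x ^ m
      ≤ (1 - x) * (16 * (B : ℝ) ^ 2 * (N : ℝ) + 4 * (δ : ℝ) ^ 2 * (1 - x)⁻¹) :=
        mul_le_mul_of_nonneg_left hsplit hx'.le
    _ = 4 * (δ : ℝ) ^ 2 + (1 - x) * (16 * (B : ℝ) ^ 2 * (N : ℝ)) := by
        field_simp; ring

end analytic

/-- the main inequality at a fixed `x` -/
lemma main_ineq (A : Set ℕ) (L δ n₀ B s : ℕ) (hB1 : 1 ≤ B) (hs : 2 ≤ s)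
    (hL : ∀ n, n₀ ≤ n → L ≤ rep A n) (hU : ∀ n, n₀ ≤ n → rep A n ≤ L + δ)
    (hB : ∀ n, rep A n ≤ B) (x : ℝ) (hx0 : 0 < x) (hx1 : x < 1) :
    (1 + x ^ (2 * B * s ^ 2) - 2 / (s : ℝ)) ^ 2 * ((L : ℝ) * x ^ n₀)
      ≤ 4 * (δ : ℝ) ^ 2
        + (1 - x) * (16 * (B : ℝ) ^ 2 * ((n₀ + 2 * (2 * B * s ^ 2) : ℕ) : ℝ)) := by
  set T := 2 * B * s ^ 2 with hT
  have hs0 : (0 : ℝ) < s := by exact_mod_cast (by omega : 0 < s)
  have hB0 : (0 : ℝ) < B := by exact_mod_cast (by omega : 0 < B)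
  have hT1 : 1 ≤ T := by
    rw [hT]; have : 1 ≤ s ^ 2 := Nat.one_le_pow _ _ (by omega)
    nlinarith
  have hTr : (T : ℝ) = 2 * B * s ^ 2 := by rw [hT]; push_cast; ring
  have hg := gen_nonneg A hx0
  -- windows
  have hM : ∀ n, ∑ H ∈ Icc 1 T, ind A (n + H) ≤ 2 * (B : ℝ) * s := by
    intro n
    have h1 := window A B T n hB
    have h2 : (∑ H ∈ Icc 1 T, ind A (n + H)) ^ 2 ≤ (2 * (B : ℝ) * s) ^ 2 := by
      refine h1.trans (le_of_eq ?_)
      rw [hTr]; ring
    exact le_of_sq_le_sq h2 (by positivity)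
  have hsum := sum_pairs_le A hx0 hx1 T (2 * (B : ℝ) * s) hM
  -- pick H
  have hex : ∃ H ∈ Icc 1 T, pairs A x H ≤ gen A x / s := by
    refine Finset.exists_le_of_sum_le (Finset.nonempty_Icc.mpr hT1) ?_
    rw [Finset.sum_const, Nat.card_Icc, nsmul_eq_mul]
    refine hsum.trans (le_of_eq ?_)
    have : ((T + 1 - 1 : ℕ) : ℝ) = 2 * B * s ^ 2 := by
      rw [Nat.add_sub_cancel, hTr]
    rw [this]
    field_simp
  obtain ⟨H, hH, hpH⟩ := hex
  rw [mem_Icc] at hH
  have hE := energy (dif A H) (abs_dif A H) x hx0 hx1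
  rw [tsum_dif_sq A hx0 hx1 H] at hE
  have hpn : 0 ≤ pairs A x H := tsum_nonneg (fun n =>
    mul_nonneg (mul_nonneg (ind_nonneg A n) (ind_nonneg A _)) (pow_nonneg hx0.le n))
  have hxH1 : x ^ H ≤ 1 := pow_le_one₀ hx0.le hx1.le
  have hxH0 : 0 < x ^ H := pow_pos hx0 H
  have hxT : x ^ T ≤ x ^ H := pow_le_pow_of_le_one hx0.le hx1.le hH.2
  have hxT0 : 0 < x ^ T := pow_pos hx0 T
  have hcoef : 0 ≤ 1 + x ^ T - 2 / (s : ℝ) := by
    have : 2 / (s : ℝ) ≤ 1 := by
      rw [div_le_one hs0]; exact_mod_cast hs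
    linarith
  have hlow : (1 + x ^ T - 2 / (s : ℝ)) * gen A x ≤
      gen A x + x ^ H * gen A x - 2 * (x ^ H * pairs A x H) := by
    have h1 : x ^ H * pairs A x H ≤ pairs A x H := by nlinarith
    have h2 : x ^ T * gen A x ≤ x ^ H * gen A x := mul_le_mul_of_nonneg_right hxT hg
    have h3 : 2 / (s : ℝ) * gen A x = 2 * (gen A x / s) := by ring
    nlinarith
  have hsq : ((1 + x ^ T - 2 / (s : ℝ)) * gen A x) ^ 2 ≤
      ∑' m, (conv (dif A H) m) ^ 2 * x ^ m :=
    (pow_le_pow_left₀ (mul_nonneg hcoef hg) hlow 2).trans hE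
  have hx' : 0 < 1 - x := by linarith
  have hfin := conv_dif_sq_tsum_le A hx0 hx1 L δ n₀ B H T hH.2 hL hU hB
  have hge := gen_sq_ge A hx0 hx1 L n₀ hL
  calc (1 + x ^ T - 2 / (s : ℝ)) ^ 2 * ((L : ℝ) * x ^ n₀)
      ≤ (1 + x ^ T - 2 / (s : ℝ)) ^ 2 * ((1 - x) * gen A x ^ 2) :=
        mul_le_mul_of_nonneg_left hge (sq_nonneg _)
    _ = (1 - x) * ((1 + x ^ T - 2 / (s : ℝ)) * gen A x) ^ 2 := by ring
    _ ≤ (1 - x) * ∑' m, (conv (dif A H) m) ^ 2 * x ^ m :=
        mul_le_mul_of_nonneg_left hsq hx'.le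
    _ ≤ _ := hfin

lemma limit_ineq (A : Set ℕ) (L δ n₀ B s : ℕ) (hB1 : 1 ≤ B) (hs : 2 ≤ s)
    (hL : ∀ n, n₀ ≤ n → L ≤ rep A n) (hU : ∀ n, n₀ ≤ n → rep A n ≤ L + δ)
    (hB : ∀ n, rep A n ≤ B) :
    (2 - 2 / (s : ℝ)) ^ 2 * (L : ℝ) ≤ 4 * (δ : ℝ) ^ 2 := by
  have hmain := main_ineq A L δ n₀ B s hB1 hs hL hU hB
  set P : ℝ → ℝ := fun x => (1 + x ^ (2 * B * s ^ 2) - 2 / (s : ℝ)) ^ 2 * ((L : ℝ) * x ^ n₀) with hP
  set Q : ℝ → ℝ := fun x => 4 * (δ : ℝ) ^ 2
        + (1 - x) * (16 * (B : ℝ) ^ 2 * ((n₀ + 2 * (2 * B * s ^ 2) : ℕ) : ℝ)) with hQ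
  have hPc : Continuous P := by rw [hP]; fun_prop
  have hQc : Continuous Q := by rw [hQ]; fun_prop
  have tP : Filter.Tendsto P (nhdsWithin 1 (Set.Iio 1)) (nhds (P 1)) :=
    (hPc.tendsto 1).mono_left nhdsWithin_le_nhds
  have tQ : Filter.Tendsto Q (nhdsWithin 1 (Set.Iio 1)) (nhds (Q 1)) :=
    (hQc.tendsto 1).mono_left nhdsWithin_le_nhds
  have hev : ∀ᶠ x in nhdsWithin (1 : ℝ) (Set.Iio 1), P x ≤ Q x := by
    have h0 : ∀ᶠ x in nhdsWithin (1 : ℝ) (Set.Iio 1), (0 : ℝ) < x :=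
      nhdsWithin_le_nhds (lt_mem_nhds (by norm_num : (0 : ℝ) < 1))
    filter_upwards [h0, self_mem_nhdsWithin] with x hx0 hx1
    exact hmain x hx0 hx1
  have := le_of_tendsto_of_tendsto tP tQ hev
  simp only [hP, hQ, one_pow, mul_one, sub_self, zero_mul, add_zero] at this
  have e : (1 + 1 - 2 / (s : ℝ)) = 2 - 2 / (s : ℝ) := by ring
  rw [e] at this
  exact this

/-- **Spread of the representation function of a basis of order two.**
If every sufficiently large integer has at least `L` representations as an ordered sum of two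
elements of `A`, then infinitely many integers have at least `L + √L` representations.
For `L = 1000` this gives infinitely many integers with at least `1032 ≥ 1010` representations. -/
theorem spread (A : Set ℕ) (L : ℕ) (hA : ∃ n₀ : ℕ, ∀ n ≥ n₀, L ≤ rep A n) (N : ℕ) :
    ∃ n ≥ N, (L : ℝ) + Real.sqrt L ≤ (rep A n : ℝ) := by
  obtain ⟨n₁, hn₁⟩ := hA
  by_contra hcon
  push Not at hcon
  rcases Nat.eq_zero_or_pos L with hL0 | hLpos
  · subst hL0
    have := hcon N (le_refl N)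
    simp only [Nat.cast_zero, Real.sqrt_zero, add_zero] at this
    exact absurd this (not_lt.mpr (Nat.cast_nonneg _))
  set n₀ := max n₁ N with hn₀
  set δ := Nat.sqrt (L - 1) with hδ
  have hδL : δ ^ 2 + 1 ≤ L := by
    have : δ * δ ≤ L - 1 := Nat.sqrt_le (L - 1)
    rw [sq]; omega
  have hL : ∀ n, n₀ ≤ n → L ≤ rep A n := fun n hn => hn₁ n (le_trans (le_max_left _ _) hn)
  have hU : ∀ n, n₀ ≤ n → rep A n ≤ L + δ := by
    intro n hn
    have h1 := hcon n (le_trans (le_max_right _ _) hn)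
    have h2 := hL n hn
    obtain ⟨d, hd⟩ := Nat.exists_eq_add_of_le h2
    rw [hd] at h1 ⊢
    push_cast at h1
    have h3 : (d : ℝ) < Real.sqrt L := by linarith
    have h4 : (d : ℝ) ^ 2 < L := by
      have := (Real.lt_sqrt (Nat.cast_nonneg d)).mp h3
      exact this
    have h5 : d ^ 2 < L := by exact_mod_cast h4
    have h6 : d ≤ δ := by
      rw [hδ]
      exact Nat.le_sqrt'.mpr (by omega)
    omega
  -- global bound
  have hsmall : ∀ n, rep A n ≤ n + 1 := by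
    intro n
    unfold rep
    have : {p : ℕ × ℕ | p.1 ∈ A ∧ p.2 ∈ A ∧ p.1 + p.2 = n} ⊆
        ((antidiagonal n : Finset (ℕ × ℕ)) : Set (ℕ × ℕ)) := by
      intro p hp
      simp only [Finset.mem_coe, Finset.HasAntidiagonal.mem_antidiagonal]
      exact hp.2.2
    have h1 := Set.ncard_le_ncard this (Finset.finite_toSet _)
    rw [Set.ncard_coe_finset, Finset.Nat.card_antidiagonal] at h1
    exact h1
  set B := max (L + δ) (n₀ + 1) with hBdef
  have hB : ∀ n, rep A n ≤ B := by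
    intro n
    rcases le_or_gt n₀ n with h | h
    · exact (hU n h).trans (le_max_left _ _)
    · exact (hsmall n).trans (le_trans (by omega) (le_max_right _ _))
  have hB1 : 1 ≤ B := le_trans (by omega) (le_max_right _ _)
  have hlim := limit_ineq A L δ n₀ B (2 * L + 2) hB1 (by omega) hL hU hB
  have hδr : (δ : ℝ) ^ 2 + 1 ≤ L := by exact_mod_cast hδL
  have hLr : (1 : ℝ) ≤ L := by exact_mod_cast hLpos
  push_cast at hlim
  have e : (2 - 2 / (2 * (L : ℝ) + 2)) ^ 2 * (L : ℝ)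
      = 4 * L - 4 * L / (L + 1) + L / (L + 1) ^ 2 := by
    field_simp; ring
  rw [e] at hlim
  have h1 : (L : ℝ) / (L + 1) < 1 := by
    rw [div_lt_one (by linarith)]; linarith
  have h2 : 0 ≤ (L : ℝ) / (L + 1) ^ 2 := by positivity
  have h3 : 4 * (L : ℝ) / (L + 1) = 4 * ((L : ℝ) / (L + 1)) := by ring
  rw [h3] at hlim
  nlinarith

end Pool.Agent.K1H92.SqrtSpreadAux
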